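import Pool.Agent.H.MP_c16527_co.A

set_option autoImplicit false

namespace Pool.Agent.H.MP_77ae25_co

open Pool.Agent.H.MP_c16527_co

def A15 : ℕ → ℕ → Bool :=
  bit 7173123015455487501140052923299905544820837474155008752390110219077904

def vs15 : List ℕ := [0, 1, 2, 3, 4, 5, 6, 7, 8, 9, 10, 11, 12, 13, 14]

def G15 : SimpleGraph (Fin 15) where
  Adj u v := A15 u v = true
  symm := ⟨by decide +kernel⟩
  loopless := ⟨by decide +kernel⟩

instance : DecidableRel G15.Adj := fun u v => inferInstanceAs (Decidable (A15 u v = true))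

lemma rep15 : Rep G15 A15 vs15 11 := ⟨fun _ _ => Iff.rfl, by decide +kernel, by decide +kernel⟩

lemma theta15 : thetaChk A15 vs15 11 = true := by decide +kernel

end Pool.Agent.H.MP_77ae25_co
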