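import Pool.Agent.H.MP_77ae25_co.A

set_option autoImplicit false

namespace Pool.Agent.H.MP_77ae25_co

open Pool.Agent.H.MP_c16527_co

lemma prism15 : prismChk A15 vs15 11 = true := by decide +kernel

end Pool.Agent.H.MP_77ae25_co
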